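import Pool.Agent.G02.Stmts

set_option autoImplicit false

/-!
# UA2: recipe A, the curve `U'`
-/

namespace Pool.Agent.G02.H70

open Pool.Agent

theorem sym_neg_one {p : ℕ} [Fact p.Prime] (h : p % 8 = 3) : legendreSym p (-1) = -1 := by
  have h2 : p ≠ 2 := by rintro rfl; norm_num at h
  rw [legendreSym.at_neg_one h2]
  exact ZMod.χ₄_nat_three_mod_four (by omega)

theorem sym_two {p : ℕ} [Fact p.Prime] (h : p % 8 = 3) : legendreSym p 2 = -1 := by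
  have h2 : p ≠ 2 := by rintro rfl; norm_num at h
  rw [legendreSym.at_two h2, ZMod.χ₈_nat_eq_if_mod_eight]
  have h3 : p % 2 ≠ 0 := by omega
  have h4 : ¬ (p % 8 = 1 ∨ p % 8 = 7) := by omega
  simp [h3, h4]

theorem prime_not_dvd {p q : ℕ} (hp : p.Prime) (hq : q.Prime) (h : p ≠ q) :
    ¬ (p : ℤ) ∣ (q : ℤ) := by
  intro hd
  have : p ∣ q := by exact_mod_cast hd
  exact h ((Nat.prime_dvd_prime_iff_eq hp hq).1 this)

theorem odd_cast {n : ℤ} (h : ¬ (2 : ℤ) ∣ n) : (n : ZMod 2) = 1 := by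
  have h1 : n % 2 = 1 := by omega
  have : ((n : ℤ) : ZMod 2) = ((1 : ℤ) : ZMod 2) := by
    rw [ZMod.intCast_eq_intCast_iff]
    exact h1
  simpa using this

theorem two_adic (k M e N p r : ℤ) (hp : ¬ (2 : ℤ) ∣ p) (hr : ¬ (2 : ℤ) ∣ r)
    (hk : ¬ (2 : ℤ) ∣ k) (he : ¬ (2 : ℤ) ∣ e)
    (h : N ^ 2 = -2 * M ^ 4 + (-(8 * k * p ^ 2)) * M ^ 2 * e ^ 2 +
      (8 * k ^ 2 * p ^ 3 * r) * e ^ 4) : False := by
  have hN : (2 : ℤ) ∣ N := by
    have : (2 : ℤ) ∣ N ^ 2 := by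
      rw [h]
      exact ⟨-M ^ 4 - 4 * k * p ^ 2 * M ^ 2 * e ^ 2 + 4 * k ^ 2 * p ^ 3 * r * e ^ 4, by ring⟩
    exact Int.prime_two.dvd_of_dvd_pow this
  obtain ⟨N₁, rfl⟩ := hN
  have h1 : 2 * N₁ ^ 2 = -M ^ 4 - 4 * k * p ^ 2 * M ^ 2 * e ^ 2 +
      4 * k ^ 2 * p ^ 3 * r * e ^ 4 := by
    have : 2 * (2 * N₁ ^ 2) = 2 * (-M ^ 4 - 4 * k * p ^ 2 * M ^ 2 * e ^ 2 +
      4 * k ^ 2 * p ^ 3 * r * e ^ 4) := by
      linear_combination h
    linarith
  have hM : (2 : ℤ) ∣ M := by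
    have : (2 : ℤ) ∣ M ^ 4 := by
      refine ⟨-(N₁ ^ 2) - 2 * k * p ^ 2 * M ^ 2 * e ^ 2 + 2 * k ^ 2 * p ^ 3 * r * e ^ 4, ?_⟩
      linear_combination h1
    exact Int.prime_two.dvd_of_dvd_pow this
  obtain ⟨M₁, rfl⟩ := hM
  have h3 : N₁ ^ 2 = -8 * M₁ ^ 4 - 8 * k * p ^ 2 * M₁ ^ 2 * e ^ 2
      + 2 * k ^ 2 * p ^ 3 * r * e ^ 4 := by
    have : 2 * N₁ ^ 2 = 2 * (-8 * M₁ ^ 4 - 8 * k * p ^ 2 * M₁ ^ 2 * e ^ 2
      + 2 * k ^ 2 * p ^ 3 * r * e ^ 4) := by linear_combination h1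
    linarith
  have hN : (2 : ℤ) ∣ N₁ := by
    have : (2 : ℤ) ∣ N₁ ^ 2 := by
      rw [h3]
      exact ⟨-4 * M₁ ^ 4 - 4 * k * p ^ 2 * M₁ ^ 2 * e ^ 2 + k ^ 2 * p ^ 3 * r * e ^ 4, by ring⟩
    exact Int.prime_two.dvd_of_dvd_pow this
  obtain ⟨N₂, rfl⟩ := hN
  have h4 : 2 * N₂ ^ 2 = -4 * M₁ ^ 4 - 4 * k * p ^ 2 * M₁ ^ 2 * e ^ 2
      + k ^ 2 * p ^ 3 * r * e ^ 4 := by
    have : 2 * (2 * N₂ ^ 2) = 2 * (-4 * M₁ ^ 4 - 4 * k * p ^ 2 * M₁ ^ 2 * e ^ 2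
      + k ^ 2 * p ^ 3 * r * e ^ 4) := by linear_combination h3
    linarith
  have p1 : (p : ZMod 2) = 1 := odd_cast hp
  have r1 : (r : ZMod 2) = 1 := odd_cast hr
  have k1 : (k : ZMod 2) = 1 := odd_cast hk
  have e1 : (e : ZMod 2) = 1 := odd_cast he
  have c2 : (2 : ZMod 2) = 0 := rfl
  have c4 : (4 : ZMod 2) = 0 := rfl
  have h5 := congrArg (Int.cast : ℤ → ZMod 2) h4
  push_cast at h5
  rw [p1, r1, e1, k1, c2, c4] at h5
  norm_num at h5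

theorem ua2 (hSUA : SuaStmt) (hRLA : RlaStmt) (hLA : LaStmt) (hLB : LbStmt)
    (hSQF : NJ.SQFStmt) : Ua2Stmt := by
  intro k p q r hR hkodd d M e N B hQ hpd
  have fp : Fact p.Prime := ⟨hR.pp⟩
  have fq : Fact q.Prime := ⟨hR.pq⟩
  have fr : Fact r.Prime := ⟨hR.pr⟩
  obtain ⟨hr8, s, S⟩ := hRLA k p q r hR
  have hpP : Prime (p : ℤ) := Nat.prime_iff_prime_int.1 hR.pp
  have hqP : Prime (q : ℤ) := Nat.prime_iff_prime_int.1 hR.pq
  have hp0 : (0 : ℤ) < p := by exact_mod_cast hR.pp.pos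
  have hq0 : (0 : ℤ) < q := by exact_mod_cast hR.pq.pos
  have hr := hR.hr
  have mp := hR.mp
  have mq := hR.mq
  have q2 : ¬ (q : ℤ) ∣ 2 := by
    have := prime_not_dvd hR.pq Nat.prime_two S.q2
    exact_mod_cast this
  have p2 : ¬ (p : ℤ) ∣ 2 := by
    have := prime_not_dvd hR.pp Nat.prime_two S.p2
    exact_mod_cast this
  have qp : ¬ (q : ℤ) ∣ p := prime_not_dvd hR.pq hR.pp (Ne.symm S.npq)
  have qr : ¬ (q : ℤ) ∣ r := prime_not_dvd hR.pq hR.pr S.nqr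
  have pr : ¬ (p : ℤ) ∣ r := prime_not_dvd hR.pp hR.pr S.npr
  have hdisc : (-(8 * k * (p : ℤ) ^ 2)) ^ 2 - 4 * (-(16 * k ^ 2 * (p : ℤ) ^ 3 * r)) =
      128 * k ^ 2 * (p : ℤ) ^ 3 * q := by
    rw [hr]; ring
  -- LA at p
  have hdp : legendreSym p d = 1 := by
    refine hLA _ _ d M e N B hQ p S.p2 hpd (Or.inr ⟨⟨-(8 * k), by ring⟩,
      ⟨-(16 * k ^ 2 * r), by ring⟩, ?_⟩)
    rintro ⟨c, hc⟩
    have h1 : (p : ℤ) ^ 3 * (2 ^ 4 * (k ^ 2 * r)) = (p : ℤ) ^ 3 * (p * (-c)) := by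
      linear_combination (-1) * hc
    have h2 := mul_left_cancel₀ (pow_ne_zero 3 hp0.ne') h1
    have h3 : (p : ℤ) ∣ 2 ^ 4 * (k ^ 2 * r) := ⟨-c, h2⟩
    rcases hpP.dvd_or_dvd h3 with h4 | h4
    · exact p2 (hpP.dvd_of_dvd_pow h4)
    · rcases hpP.dvd_or_dvd h4 with h5 | h5
      · exact S.kp (hpP.dvd_of_dvd_pow h5)
      · exact pr h5
  -- LB at q
  have hdq : legendreSym q d = 1 := by
    refine hLB _ _ d M e N B hQ q S.q2 ?_ ?_ ?_
    · intro h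
      have h0 : (q : ℤ) ∣ 2 ^ 4 * (k ^ 2 * ((p : ℤ) ^ 3 * r)) := by
        obtain ⟨c, hc⟩ := h
        exact ⟨-c, by linear_combination (-1) * hc⟩
      rcases hqP.dvd_or_dvd h0 with h4 | h4
      · exact q2 (hqP.dvd_of_dvd_pow h4)
      · rcases hqP.dvd_or_dvd h4 with h5 | h5
        · exact S.kq (hqP.dvd_of_dvd_pow h5)
        · rcases hqP.dvd_or_dvd h5 with h6 | h6
          · exact qp (hqP.dvd_of_dvd_pow h6)
          · exact qr h6
    · rw [hdisc]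
      exact ⟨128 * k ^ 2 * (p : ℤ) ^ 3, by ring⟩
    · rw [hdisc]
      rintro ⟨c, hc⟩
      have h1 : (q : ℤ) * (2 ^ 7 * (k ^ 2 * (p : ℤ) ^ 3)) = (q : ℤ) * (q * c) := by
        linear_combination hc
      have h2 := mul_left_cancel₀ hq0.ne' h1
      have h3 : (q : ℤ) ∣ 2 ^ 7 * (k ^ 2 * (p : ℤ) ^ 3) := ⟨c, h2⟩
      rcases hqP.dvd_or_dvd h3 with h4 | h4
      · exact q2 (hqP.dvd_of_dvd_pow h4)
      · rcases hqP.dvd_or_dvd h4 with h5 | h5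
        · exact S.kq (hqP.dvd_of_dvd_pow h5)
        · exact qp (hqP.dvd_of_dvd_pow h5)
  -- the support
  have hS := (hSUA k p q r hR d M e N B).2.2.2 hQ
  obtain ⟨ε, hε, hd⟩ := (hSQF d r q hQ.sqf hR.pr hR.pq S.r2 S.q2 (Ne.symm S.nqr)).1 (by
    intro l hl hld
    rcases hS l hl hld with h | h | h | h
    · exact Or.inl h
    · subst h; exact absurd hld hpd
    · exact Or.inl h
    · exact Or.inr h)
  have hεpq : legendreSym p ε = legendreSym q ε := by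
    rcases hε with rfl | rfl
    · rw [legendreSym.at_one, legendreSym.at_one]
    · rw [sym_neg_one mp, sym_neg_one mq]
  have hpR : legendreSym p r = -s := S.hpR
  have hqR : legendreSym q r = s := S.hqR
  rcases hd with h | h | h | h
  · rcases hε with h' | h'
    · rw [h, h']
    · rw [h, h', sym_neg_one mq] at hdq; norm_num at hdq
  · rcases hε with h' | h'
    · rw [h, h', one_mul, sym_two mq] at hdq; norm_num at hdq
    · exfalso
      have hd2 : d = -2 := by rw [h, h']; ring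
      subst hd2
      have hB : B = 8 * k ^ 2 * p ^ 3 * r := by
        have := hQ.hb
        linarith
      have he : ¬ (2 : ℤ) ∣ e := by
        intro h2
        have h3 := hQ.cop
        have h4 : (2 : ℤ) ∣ (-2) * M := ⟨-M, by ring⟩
        have := h3.isUnit_of_dvd' h4 h2
        rw [Int.isUnit_iff] at this
        norm_num at this
      have hk2 : ¬ (2 : ℤ) ∣ k := by
        intro h2
        rw [Int.odd_iff] at hkodd
        omega
      refine two_adic k M e N p r (by omega) (by omega) hk2 he ?_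
      rw [← hB]
      exact hQ.eq
  · exfalso
    rw [h, legendreSym.mul] at hdp hdq
    rw [hεpq, hpR] at hdp
    rw [hqR] at hdq
    have : legendreSym q ε * s + legendreSym q ε * (-s) = 2 := by rw [hdp, hdq]; norm_num
    have h3 : legendreSym q ε * s + legendreSym q ε * (-s) = 0 := by ring
    omega
  · exfalso
    rw [h, legendreSym.mul, legendreSym.mul] at hdp hdq
    rw [hεpq, hpR, sym_two mp] at hdp
    rw [hqR, sym_two mq] at hdq
    have h3 : legendreSym q ε * (-1 * s) + legendreSym q ε * (-1 * (-s)) = 0 := by ring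
    rw [hdp, hdq] at h3
    norm_num at h3

end Pool.Agent.G02.H70
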